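import Pool.Agent.N251.LF.Win
import Pool.Agent.T9h59.OP.Count

/-!
# Oppermann's conjecture for all `x` near the values of generic polynomials and linear forms

There is `c > 0` such that the following holds. Let `v_i`, `i` in a countable set, be vectors in `ℝ^k`, `O(X^(τ + ε))` of them
of norm at most `X` for every `ε > 0`: for instance `(1, n, …, n^d)` with `τ = 1 / d`, or `(b_1^(n_1), …, b_k^(n_k))`, `b_j > 1`,
for all `n_1, …, n_k`, with `τ = 0`, or `(n_1^(a_1), …, n_k^(a_k))`, `a_j > 0`, with `τ = ∑ 1 / a_j`. Let `θ < 1`. For all `α` in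
`ℝ^k` outside a set of Hausdorff dimension at most `k - 1 + (0.612 + τ) / (1 - θ)` and all `C`, for all but finitely many `i`,
Oppermann's conjecture holds for ALL `x ≥ 2` with `|x - α · v_i| ≤ C ‖v_i‖^θ`, even with at least `c x / log x` primes in both
intervals `(x² - x, x²)` and `(x², x² + x)`.

The bound for the dimension is less than `k` if `0.612 + τ + θ < 1`: so for almost all real polynomials `f` of degree
`d ≥ 3` Oppermann's conjecture holds for ALL `x` with `|x - f(n)| ≤ C n^(d θ)`, `n` large, and for almost all `α` it holds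
for ALL `x` near the large numbers `α_1 b_1^(n_1) + … + α_k b_k^(n_k)`, with windows of length `‖(b_j^(n_j))‖^0.387`.

The number `O(X^0.612)` of the exceptional `x ≤ X` comes from the starting library (`Q278/KT`: few poor intervals, by
Heath-Brown's identity and large values of Dirichlet polynomials), the windows around the values of generic linear forms
from `N251/LF`.
-/

set_option autoImplicit false

namespace Pool.Agent.Results.MP_bf4c7f_nt.GenericLinearForms

open Pool.Agent.N251.LF (Fam Sq linear_good_nat)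
open Pool.Agent.T9h59.OP (Opp count)

/-- **Oppermann's conjecture near the values of generic polynomials and linear forms.** There is `c > 0` such that for every
family `v` of vectors in `ℝ^k` with `O_ε(X^(τ + ε))` members of norm at most `X`, and all `θ < 1`, there is a set `E` of
Hausdorff dimension at most `k - 1 + (0.612 + τ) / (1 - θ)` such that for all `α` outside `E` and all `C`, for all but finitely
many `i`, ALL `x ≥ 1` with `|x - α · v_i| ≤ C ‖v_i‖^θ` have the property `Opp c`: both intervals `(x² - x, x²)` and `(x², x² + x)`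
contain at least `c x / log x` primes (so at least one, for `x ≥ 2`). Examples of the families. -/
theorem result :
    (∃ c : ℝ, 0 < c ∧ ∀ (k : ℕ) (ι : Type) (v : ι → Fin k → ℝ) (τ θ : ℝ), Fam v τ → 0 ≤ τ → θ < 1 →
      ∃ E : Set (Fin k → ℝ), dimH E ≤ ENNReal.ofReal ((k : ℝ) - 1 + (0.612 + τ) / (1 - θ)) ∧
        ∀ α, α ∉ E → ∀ C : ℝ,
          {i | ¬ ∀ x : ℕ, 1 ≤ x → |(x : ℝ) - ∑ j, α j * v i j| ≤ C * ‖v i‖ ^ θ → Opp c x}.Finite) ∧
    (∀ c : ℝ, 0 < c → ∀ x : ℕ, 2 ≤ x → Opp c x →
      (∃ p : ℕ, p.Prime ∧ x ^ 2 - x < p ∧ p < x ^ 2) ∧ ∃ p : ℕ, p.Prime ∧ x ^ 2 < p ∧ p < x ^ 2 + x) ∧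
    (∀ d : ℕ, 1 ≤ d → Fam (fun (n : ℕ) (j : Fin (d + 1)) => (n : ℝ) ^ (j : ℕ)) (1 / d)) ∧
    (∀ (k : ℕ) (b : Fin k → ℝ), (∀ j, 1 < b j) → Fam (fun (n : Fin k → ℕ) (j : Fin k) => b j ^ n j) 0) ∧
    (∀ (k : ℕ) (a : Fin k → ℝ), (∀ j, 0 < a j) →
      Fam (fun (n : Fin k → ℕ) (j : Fin k) => (n j : ℝ) ^ a j) (∑ j, 1 / a j)) ∧
    ∀ (k : ℕ) (u : Fin k → ℕ → ℝ) (τ : Fin k → ℝ), (∀ j, Sq (u j) (τ j)) →
      Fam (fun (n : Fin k → ℕ) (j : Fin k) => u j (n j)) (∑ j, τ j) := by
  refine ⟨?_, fun c hc x hx h => h.primes hc hx, Pool.Agent.N251.LF.examples⟩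
  obtain ⟨c, hc, hcount⟩ := count
  refine ⟨c, hc, fun k ι v τ θ hv hτ hθ => ?_⟩
  obtain ⟨E, h1, h2⟩ := linear_good_nat (fun _ => True) (Opp c) v (s := 0.612) (by norm_num) hτ hθ hv hcount
  refine ⟨E, h1, fun α hα C => ?_⟩
  simpa only [true_imp_iff] using h2 α hα C

end Pool.Agent.Results.MP_bf4c7f_nt.GenericLinearForms
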