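import Pool.Agent.T9h59.OR.C
import Pool.Agent.T9h59.OP.Count

/-!
# Oppermann's conjecture for all `x` near the orders of the subgroups of `F_q^*`

There is `c > 0` such that the following holds. Let `G` be a real sequence with steps bounded below by a positive constant and
growth at most `v^d`, `θ ≥ 0`, `σ = 0.612 d + θ < 1` and `0 ≤ γ < 1`. For all primes `q ≤ X` but `O(X^(1 - ρ))`,
`ρ < (1 - γ) (1 - σ) / 2`: for ALL subgroups of `F_q^*` which contain an integer `a`, `2 ≤ a ≤ X^γ`, for example those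
generated by such an integer, with the order `w`, Oppermann's conjecture holds for ALL `x ≥ 2` with `|x - G w| ≤ w^θ` (so for
`x = w` itself), even with at least `c x / log x` primes in both intervals `(x² - x, x²)` and `(x², x² + x)`. The number of
the `w` which occur is not restricted, one prime has many subgroups of this kind, and one `w` can occur for many primes; the
proof counts the primes with `q ∣ a ^ w - 1` for small `w`, and the cofactors `(q - 1) / w` for large `w` (`T9h59/OR`).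

The number `O(X^0.612)` of the exceptional `x ≤ X` comes from the starting library (`Q278/KT`: few poor intervals, by
Heath-Brown's identity and large values of Dirichlet polynomials).
-/

set_option autoImplicit false

namespace Pool.Agent.Results.MP_bf4c7f_nt.SubgroupOrders

open Pool.Agent.N733.TG (Expanding expanding_pow)
open Pool.Agent.T9h59.OR (SubOrder sub_good_nat subOrder_orderOf)
open Pool.Agent.T9h59.OP (Opp count)

/-- **Oppermann's conjecture near the orders of the subgroups of `F_q^*`.** There is `c > 0` such that: let `G` have steps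
`≥ a > 0` and growth at most `v ^ d`, let `θ ≥ 0`, `σ = 0.612 d + θ < 1`, `0 ≤ γ < 1` and `ρ < (1 - γ) (1 - σ) / 2`. For all
primes `q ≤ X` but `C X^(1 - ρ)`: for the order `w` of EVERY subgroup of `F_q^*` which contains an integer `a`,
`2 ≤ a ≤ X^γ` (`SubOrder (X ^ γ) q w`), ALL `x ≥ 1` with `|x - G w| ≤ w ^ θ` have the property `Opp c`: both intervals
`(x² - x, x²)` and `(x², x² + x)` contain at least `c x / log x` primes (so at least one, for `x ≥ 2`). The order of `a` modulo `q`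
is such a number `w`, and `α v ^ d` with `α > 0`, `d ≥ 1` is an example of `G`. -/
theorem result :
    (∃ c : ℝ, 0 < c ∧ ∀ (G : ℕ → ℝ) (d θ : ℝ), Expanding G d → 0 ≤ θ → d * 0.612 + θ < 1 →
      ∀ γ ρ : ℝ, 0 ≤ γ → γ < 1 → ρ < (1 - γ) * (1 - (d * 0.612 + θ)) / 2 → ∃ C : ℝ, ∀ X : ℕ, 1 ≤ X →
      ({q : ℕ | q.Prime ∧ q ≤ X ∧ ¬ ∀ w, SubOrder ((X : ℝ) ^ γ) q w → ∀ x : ℕ, 1 ≤ x →
        |(x : ℝ) - G w| ≤ (w : ℝ) ^ θ → Opp c x}.ncard : ℝ) ≤ C * (X : ℝ) ^ (1 - ρ)) ∧
    (∀ c : ℝ, 0 < c → ∀ x : ℕ, 2 ≤ x → Opp c x →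
      (∃ p : ℕ, p.Prime ∧ x ^ 2 - x < p ∧ p < x ^ 2) ∧ ∃ p : ℕ, p.Prime ∧ x ^ 2 < p ∧ p < x ^ 2 + x) ∧
    (∀ (B : ℝ) (p a : ℕ), p.Prime → 2 ≤ a → (a : ℝ) ≤ B → ¬ p ∣ a → SubOrder B p (orderOf (a : ZMod p))) ∧
    ∀ α d : ℝ, 0 < α → 1 ≤ d → Expanding (fun v => α * (v : ℝ) ^ d) d := by
  refine ⟨?_, fun c hc x hx h => h.primes hc hx, fun B p a hp ha haB hpa => subOrder_orderOf hp ha haB hpa,
    fun α d hα hd => expanding_pow hα hd⟩
  obtain ⟨c, hc, hcount⟩ := count
  refine ⟨c, hc, fun G d θ hG hθ h1 γ ρ hγ0 hγ1 hρ => ?_⟩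
  obtain ⟨C, hC⟩ := sub_good_nat (fun _ => True) (Opp c) hG (s := 0.612) (by norm_num) hθ h1 hcount hγ0 hγ1 hρ
  refine ⟨C, fun X hX => le_trans (le_of_eq ?_) (hC X hX)⟩
  simp only [true_imp_iff]

end Pool.Agent.Results.MP_bf4c7f_nt.SubgroupOrders
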