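import Pool.Agent.N760.IT.C
import Pool.Agent.T9h59.OP.Count

/-!
# Oppermann's conjecture for all `x` near the members of almost all orbits of Euler's function

There is `c > 0` such that the following holds. Let `φ_k` be the `k`-th iterate of Euler's function. Let `f` be a positive
multiplicative function of at most polynomial growth with `f p ≤ M p` for the large primes `p` and with different values at
different large primes; for example the identity, Euler's function or the sum of the divisors. Let `G` have steps bounded
below by a positive constant and growth at most `v ^ d`, `θ ≥ 0` and `0.612 d + θ < 1`. There is `K(m)` tending to infinity such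
that for almost all `m`, for all `k ≤ K(m)`, with `v = f(φ_k(m))`, Oppermann's conjecture holds for ALL `x ≥ 2` with
`|x - G v| ≤ v ^ θ` (so for `x = φ_k(m)` itself), even with at least `c x / log x` primes in both intervals `(x² - x, x²)` and
`(x², x² + x)`.

The values of the iterates form a thin set and are taken with very large multiplicities; the result does not follow from
the number of the exceptional `x`. This number, `O(X^0.612)`, comes from the starting library (`Q278/KT`: few poor intervals),
and the bounds for preimages from `N760/IT`.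
-/

set_option autoImplicit false

open Filter

namespace Pool.Agent.Results.MP_bf4c7f_nt.TotientOrbits

open Pool.Agent.N733.TG (LM Expanding expanding_pow lm_totient lm_sigma)
open Pool.Agent.N760.IT (orb lm_id orbit_good_nat)
open Pool.Agent.N826.IT.Orb (AlmostAll)
open Pool.Agent.T9h59.OP (Opp count)

/-- **Oppermann's conjecture along the orbits of Euler's function.** There is `c > 0` such that: let `f` be multiplicative and
positive, of at most polynomial growth, with `f p ≤ M p` at the large primes, and injective there. Let `G` have steps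
`≥ a > 0` and growth at most `v ^ d`, and let `θ ≥ 0`, `0.612 d + θ < 1`. Then there is `K(m)` tending to infinity such that for
almost all `m`, for all `k ≤ K(m)`, with `v = f(φ_k(m))` (`orb f k m`), ALL `x ≥ 1` with `|x - G v| ≤ v ^ θ` have the property
`Opp c`: both intervals `(x² - x, x²)` and `(x², x² + x)` contain at least `c x / log x` primes (so at least one, for `x ≥ 2`).
The identity, Euler's function and the sum of the divisors are examples of such functions `f`, and `α v ^ d` with `α > 0`,
`d ≥ 1` is an example of `G`. -/
theorem result :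
    (∃ c : ℝ, 0 < c ∧ ∀ f : ℕ → ℕ, LM f → ∀ (G : ℕ → ℝ) (d θ : ℝ), Expanding G d → 0 ≤ θ → d * 0.612 + θ < 1 →
      ∃ K : ℕ → ℕ, Tendsto K atTop atTop ∧
        AlmostAll (fun m => ∀ k ≤ K m, ∀ x : ℕ, 1 ≤ x →
          |(x : ℝ) - G (orb f k m)| ≤ (orb f k m : ℝ) ^ θ → Opp c x)) ∧
    (∀ c : ℝ, 0 < c → ∀ x : ℕ, 2 ≤ x → Opp c x →
      (∃ p : ℕ, p.Prime ∧ x ^ 2 - x < p ∧ p < x ^ 2) ∧ ∃ p : ℕ, p.Prime ∧ x ^ 2 < p ∧ p < x ^ 2 + x) ∧
    (LM (fun m => m) ∧ LM Nat.totient ∧ LM (fun m => ∑ d ∈ m.divisors, d)) ∧
    ∀ α d : ℝ, 0 < α → 1 ≤ d → Expanding (fun v => α * (v : ℝ) ^ d) d := by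
  refine ⟨?_, fun c hc x hx h => h.primes hc hx, ⟨lm_id, lm_totient, lm_sigma⟩, fun α d hα hd => expanding_pow hα hd⟩
  obtain ⟨c, hc, hcount⟩ := count
  refine ⟨c, hc, fun f hf G d θ hG hθ h1 => ?_⟩
  obtain ⟨K, hK, h⟩ := orbit_good_nat (fun _ => True) (Opp c) hf hG (s := 0.612) (by norm_num) hθ h1 hcount
  exact ⟨K, hK, by simpa only [true_imp_iff] using h⟩

end Pool.Agent.Results.MP_bf4c7f_nt.TotientOrbits
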