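import Pool.Agent.T9h23.Op.A4

/-!
# Oppermann's conjecture at all values of almost all polynomials, beyond the height

For almost all integer polynomials `f` of degree `≤ d` with coefficients in `[-H, H]`, both intervals of Oppermann
contain `≥ c x / log x` primes for every `x` close to `|f(n)|`, for ALL integers `|n| ≤ H ^ τ`; here `τ > 1` is
allowed for `d ≥ 2`.
-/

set_option autoImplicit false

namespace Pool.Agent.Results.MP_bf4c7f_nt.ValuesOfAlmostAllPolynomials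

/-- Oppermann's conjecture at `x`, with many primes: `x ≥ 2`, and each of the open intervals `(x² - x, x²)` and
`(x², x² + x)` contains at least `c x / log x` primes -/
def Oppermann (c : ℝ) (x : ℕ) : Prop :=
  2 ≤ x ∧
  c * x / Real.log x ≤ ({p : ℕ | p.Prime ∧ x ^ 2 - x < p ∧ p < x ^ 2}.ncard : ℝ) ∧
  c * x / Real.log x ≤ ({p : ℕ | p.Prime ∧ x ^ 2 < p ∧ p < x ^ 2 + x}.ncard : ℝ)

/-- the value at `n` of the polynomial with the coefficients `a 0, ..., a d` -/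
def value {d : ℕ} (a : Fin (d + 1) → ℤ) (n : ℤ) : ℤ := ∑ i, a i * n ^ (i : ℕ)

/-- Oppermann's conjecture (with the constant `c`) holds for every natural number `x` within `H ^ κ` of `|f(n)|`,
for every integer `n` with `|n| ≤ H ^ τ` -/
def Good (c τ κ : ℝ) (H : ℕ) {d : ℕ} (a : Fin (d + 1) → ℤ) : Prop :=
  ∀ n : ℤ, |(n : ℝ)| ≤ (H : ℝ) ^ τ → ∀ x : ℕ, abs ((x : ℝ) - |(value a n : ℝ)|) ≤ (H : ℝ) ^ κ → Oppermann c x

theorem result :
    ∃ c : ℝ, 0 < c ∧ ∀ d : ℕ, 1 ≤ d → ∀ τ κ : ℝ, 0 < τ → 0 ≤ κ → κ < 0.388 →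
      κ + τ * (1 - 0.388 * d) < 0.388 → κ + τ * (1 + 0.612 * d) < d + 0.388 →
      ∃ δ : ℝ, 0 < δ ∧ ∃ H₀ : ℕ, ∀ H : ℕ, H₀ ≤ H →
        ({a : Fin (d + 1) → ℤ | (∀ i, |a i| ≤ H) ∧ ¬ Good c τ κ H a}.ncard : ℝ) ≤
          (2 * H + 1) ^ (d + 1) / (H : ℝ) ^ δ := by
  classical
  obtain ⟨c, hc, hmain⟩ := T9h23.Op.total
  refine ⟨c, hc, ?_⟩
  intro d hd τ κ hτ hκ0 hκ1 h1 h2
  obtain ⟨δ, hδ, H0, hH0⟩ := hmain d hd τ κ hτ hκ0 hκ1 h1 h2
  refine ⟨δ, hδ, H0, ?_⟩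
  intro H hH
  have hopp : ∀ x : ℕ, T9h23.Op.Opp c x → Oppermann c x := by
    intro x hx
    obtain ⟨g1, g2, g3⟩ := hx
    have e : ∀ a b : ℕ, T9h23.Op.np a b = {p : ℕ | p.Prime ∧ a < p ∧ p < b}.ncard := by
      intro a b
      unfold T9h23.Op.np
      rw [← Set.ncard_coe_finset]
      congr 1
      ext p
      simp only [Finset.coe_filter, Finset.mem_Ioo, Set.mem_setOf_eq]
      tauto
    rw [e] at g2 g3
    exact ⟨g1, g2, g3⟩
  refine le_trans ?_ (hH0 H hH)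
  have hsub : {a : Fin (d + 1) → ℤ | (∀ i, |a i| ≤ H) ∧ ¬ Good c τ κ H a} ⊆
      (((T9h23.Op.box (d + 1) H).filter (fun a => ¬ ∀ n : ℤ, |(n : ℝ)| ≤ (H : ℝ) ^ τ → ∀ x : ℕ,
        abs ((x : ℝ) - |(T9h23.Op.ev a n : ℝ)|) ≤ (H : ℝ) ^ κ → T9h23.Op.Opp c x) : Finset _) : Set _) := by
    intro a ha
    obtain ⟨ha1, ha2⟩ := ha
    rw [Finset.mem_coe, Finset.mem_filter, T9h23.Op.mem_box]
    refine ⟨ha1, fun hcon => ha2 ?_⟩
    intro n hn x hx
    exact hopp x (hcon n hn x hx)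
  have h3 := Set.ncard_le_ncard hsub (Finset.finite_toSet _)
  rw [Set.ncard_coe_finset] at h3
  exact_mod_cast h3

end Pool.Agent.Results.MP_bf4c7f_nt.ValuesOfAlmostAllPolynomials
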